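import Pool.Agent.W348.RG.Stms

/-!
Project RG (MP_67ef3c_al), part K1: the ideal belonging to a normal subgroup of prime power index.
-/

set_option autoImplicit false

open Finset

namespace Pool.Agent.W441.RG

open Pool.Agent.W348.RG

lemma ex_zero (m : ℕ) : ex (0 : Mt m) = 1 := by
  unfold ex
  rcases m with _ | m
  · exact Subsingleton.elim _ _
  · rw [Finset.sum_eq_single 0]
    · simp
    · intro k _ hk
      rw [zero_pow hk, smul_zero]
    · intro h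
      exact absurd (Finset.mem_range.2 (Nat.succ_pos m)) h

section

variable {G : Type} [Group G] (r : UniRep G)

lemma rho_sub (g : G) : r.ρ g - 1 ∈ J r.m := by
  intro i j h
  rw [Matrix.sub_apply, r.uni g i j h, Matrix.one_apply, sub_self]

variable (h1 : S_exp)

include h1

lemma lg_mem (g : G) : lg (r.ρ g) ∈ J r.m := ((h1 r.m).2.1 _ (rho_sub r g)).2

lemma ex_lg (g : G) : ex (lg (r.ρ g)) = r.ρ g := ((h1 r.m).2.1 _ (rho_sub r g)).1

lemma ex_nat (g : G) (n : ℕ) : ex ((n : ℚ) • lg (r.ρ g)) = r.ρ (g ^ n) := by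
  induction n with
  | zero => simp [ex_zero]
  | succ n ih =>
    have h := (h1 r.m).2.2 _ (lg_mem r h1 g) n 1
    rw [one_smul, ih, ex_lg r h1] at h
    rw [pow_succ, map_mul, h]
    push_cast
    rfl

lemma ex_neg_nat (g : G) (n : ℕ) : ex (-(n : ℚ) • lg (r.ρ g)) = r.ρ ((g ^ n)⁻¹) := by
  have h := (h1 r.m).2.2 _ (lg_mem r h1 g) (-(n : ℚ)) n
  rw [neg_add_cancel, zero_smul, ex_zero, ex_nat r h1] at h
  have h2 : r.ρ (g ^ n) * r.ρ ((g ^ n)⁻¹) = 1 := by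
    rw [← map_mul, mul_inv_cancel, map_one]
  calc ex (-(n : ℚ) • lg (r.ρ g))
      = ex (-(n : ℚ) • lg (r.ρ g)) * (r.ρ (g ^ n) * r.ρ ((g ^ n)⁻¹)) := by rw [h2, mul_one]
    _ = r.ρ ((g ^ n)⁻¹) := by rw [← mul_assoc, h, one_mul]

lemma ex_int (g : G) (z : ℤ) : ex ((z : ℚ) • lg (r.ρ g)) = r.ρ (g ^ z) := by
  obtain ⟨n, rfl | rfl⟩ := z.eq_nat_or_neg
  · rw [Int.cast_natCast, ex_nat r h1, zpow_natCast]
  · rw [Int.cast_neg, Int.cast_natCast, ex_neg_nat r h1, zpow_neg, zpow_natCast]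

lemma lg_int (g : G) (z : ℤ) : (z : ℚ) • lg (r.ρ g) = lg (r.ρ (g ^ z)) := by
  rw [← ex_int r h1, ((h1 r.m).1 _ ((J r.m).smul_mem _ (lg_mem r h1 g))).1]

end

lemma k1 (h1 : S_exp) (h2 : S_bch) (h3 : S_van) (h4 : S_hull) : S_k1 := by
  intro G _ r p j hp hB N hN hidx
  haveI := hN
  -- the monoid of the naturals prime to `p`
  let E : Submonoid ℕ :=
    { carrier := {n | n.Coprime p}
      mul_mem' := fun {a b} ha hb => Nat.Coprime.mul_left ha hb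
      one_mem' := Nat.coprime_one_left p }
  have hE : ∀ n, n ∈ E ↔ n.Coprime p := fun n => Iff.rfl
  have hE0 : 0 ∉ E := by
    rw [hE, Nat.coprime_zero_left]
    exact hp.one_lt.ne'
  have hpos : ∀ n ∈ E, 0 < n := by
    intro n hn
    rcases Nat.eq_zero_or_pos n with rfl | h
    · exact absurd hn hE0
    · exact h
  have hinv : ∀ n ∈ E, ((n : ℕ) : ℚ)⁻¹ ∈ Rp p := by
    intro n hn
    have h : ((n : ℕ) : ℚ)⁻¹.den = n := by
      rw [Rat.inv_natCast_den_of_pos (hpos n hn)]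
    change (((n : ℕ) : ℚ)⁻¹.den).Coprime p
    rw [h]
    exact hn
  have hden : ∀ q ∈ Rp p, ∃ n ∈ E, ∃ z : ℤ, (n : ℚ) * q = z := by
    intro q hq
    refine ⟨q.den, hq, q.num, ?_⟩
    rw [mul_comm]
    exact Rat.mul_den_eq_num q
  have hI : Inv r.m (Rp p) := by
    intro i hi hi2
    refine hinv i ?_
    rw [hE]
    refine ((Nat.Prime.coprime_iff_not_dvd hp).2 fun h => ?_).symm
    exact absurd (Nat.le_of_dvd hi h) (not_le.2 (lt_of_le_of_lt hi2 hB))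
  obtain ⟨M, hM, hML⟩ := h4 G r ⊤ E (Rp p) hE0 hinv hden hI
  obtain ⟨I, hIm, hIL⟩ := h4 G r N E (Rp p) hE0 hinv hden hI
  have hIM : I ≤ M := by
    intro x hx
    obtain ⟨hJ, n, hn, g, _, hg⟩ := (hIm x).1 hx
    exact (hM x).2 ⟨hJ, n, hn, g, Subgroup.mem_top g, hg⟩
  have hlgM : ∀ g, lg (r.ρ g) ∈ M := by
    intro g
    refine (hM _).2 ⟨lg_mem r h1 g, 1, E.one_mem, g, Subgroup.mem_top g, ?_⟩
    rw [Nat.cast_one, one_smul, ex_lg r h1]
  have hlgN : ∀ g ∈ N, lg (r.ρ g) ∈ I := by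
    intro g hg
    refine (hIm _).2 ⟨lg_mem r h1 g, 1, E.one_mem, g, hg, ?_⟩
    rw [Nat.cast_one, one_smul, ex_lg r h1]
  have hlgJ : ∀ x ∈ J r.m, ∀ n : ℕ, ∀ g : G, ex ((n : ℚ) • x) = r.ρ g → (n : ℚ) • x = lg (r.ρ g) := by
    intro x hx n g h
    rw [← h, ((h1 r.m).1 _ ((J r.m).smul_mem _ hx)).1]
  have hpow : ∀ g : G, g ^ (p ^ j) ∈ N := by
    intro g
    rw [← hidx]
    exact Subgroup.pow_index_mem N g
  have hmem : ∀ g, lg (r.ρ g) ∈ I ↔ g ∈ N := by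
    intro g
    refine ⟨fun h => ?_, hlgN g⟩
    obtain ⟨_, n, hn, k, hk, hnk⟩ := (hIm _).1 h
    rw [ex_nat r h1] at hnk
    have h5 : g ^ n ∈ N := by
      rw [r.inj hnk]
      exact hk
    have h6 : Nat.Coprime n (p ^ j) := Nat.Coprime.pow_right j hn
    have h7 : ((g : G) : G ⧸ N) ^ n = 1 := by
      rw [← QuotientGroup.mk_pow]
      exact (QuotientGroup.eq_one_iff _).2 h5
    have h8 : ((g : G) : G ⧸ N) ^ (p ^ j) = 1 := by
      rw [← QuotientGroup.mk_pow]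
      exact (QuotientGroup.eq_one_iff _).2 (hpow g)
    have h9 : ((g : G) : G ⧸ N) = 1 := by
      rw [← orderOf_eq_one_iff, ← Nat.dvd_one, ← h6]
      exact Nat.dvd_gcd (orderOf_dvd_of_pow_eq_one h7) (orderOf_dvd_of_pow_eq_one h8)
    exact (QuotientGroup.eq_one_iff _).1 h9
  have hid : IsIdl (Rp p) M I := by
    refine ⟨hIL.smul, hIM, ?_⟩
    intro x hx y hy
    obtain ⟨hxJ, n, hn, g, _, hg⟩ := (hM x).1 hx
    obtain ⟨hyJ, k, hk, h, hhN, hh⟩ := (hIm y).1 hy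
    have hX := hlgJ x hxJ n g hg
    have hY := hlgJ y hyJ k h hh
    have hc : lg (r.ρ g) * lg (r.ρ h) - lg (r.ρ h) * lg (r.ρ g) ∈ I := by
      refine h3 r.m (Rp p) hI I hIL.smul _ (lg_mem r h1 g) _ (lg_mem r h1 h) ?_
      intro s t _ _
      rw [ex_nat r h1, ex_nat r h1, ex_neg_nat r h1, ex_neg_nat r h1, ← map_mul, ← map_mul,
        ← map_mul]
      apply hlgN
      have e1 : g ^ s * h ^ t * (g ^ s)⁻¹ ∈ N := hN.conj_mem _ (N.pow_mem hhN t) _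
      exact N.mul_mem e1 (N.inv_mem (N.pow_mem hhN t))
    have hn0 : ((n : ℕ) : ℚ) ≠ 0 := by exact_mod_cast (hpos n hn).ne'
    have hk0 : ((k : ℕ) : ℚ) ≠ 0 := by exact_mod_cast (hpos k hk).ne'
    have hx2 : x = (n : ℚ)⁻¹ • lg (r.ρ g) := by rw [← hX, smul_smul, inv_mul_cancel₀ hn0, one_smul]
    have hy2 : y = (k : ℚ)⁻¹ • lg (r.ρ h) := by rw [← hY, smul_smul, inv_mul_cancel₀ hk0, one_smul]
    have hxy : x * y - y * x = ((n : ℚ)⁻¹ * (k : ℚ)⁻¹) •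
        (lg (r.ρ g) * lg (r.ρ h) - lg (r.ρ h) * lg (r.ρ g)) := by
      rw [hx2, hy2, smul_sub, smul_mul_smul_comm, smul_mul_smul_comm, mul_comm (k : ℚ)⁻¹]
    rw [hxy]
    exact hIL.smul _ ((Rp p).mul_mem (hinv n hn) (hinv k hk)) _ hc
  have hne : N.index ≠ 0 := by
    rw [hidx]
    exact pow_ne_zero _ hp.ne_zero
  -- the map `G → M / I`
  let f : G → M ⧸ I.addSubgroupOf M := fun g => QuotientAddGroup.mk ⟨lg (r.ρ g), hlgM g⟩
  have hf : ∀ a b : G, a⁻¹ * b ∈ N → f a = f b := by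
    intro a b hab
    have e1 : r.ρ b = ex (lg (r.ρ a)) * ex (lg (r.ρ (a⁻¹ * b))) := by
      rw [ex_lg r h1, ex_lg r h1, ← map_mul, mul_inv_cancel_left]
    have e2 := ((h2 r.m (Rp p) hI M hML).2 I hid).1 (lg (r.ρ a)) (hlgM a) (lg (r.ρ a)) (hlgM a)
      (lg (r.ρ (a⁻¹ * b))) (hlgM _) 0 (M.zero_mem) (by rw [sub_self]; exact I.zero_mem)
      (by rw [sub_zero]; exact hlgN _ hab)
    rw [← e1, ex_zero, mul_one, ex_lg r h1] at e2
    refine (QuotientAddGroup.eq).2 ?_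
    rw [AddSubgroup.mem_addSubgroupOf]
    have e3 : ((-(⟨lg (r.ρ a), hlgM a⟩ : M) + ⟨lg (r.ρ b), hlgM b⟩ : M) : Mt r.m) =
      lg (r.ρ b) - lg (r.ρ a) := by
      push_cast
      rw [neg_add_eq_sub]
    rw [e3]
    exact e2
  have hsurj : Function.Surjective f := by
    intro y
    obtain ⟨⟨x, hx⟩, rfl⟩ := QuotientAddGroup.mk_surjective y
    obtain ⟨hxJ, n, hn, g, _, hg⟩ := (hM x).1 hx
    have hX := hlgJ x hxJ n g hg
    have hcop : Nat.Coprime n (p ^ j) := Nat.Coprime.pow_right j hn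
    have hb : (1 : ℤ) = n * Nat.gcdA n (p ^ j) + (p ^ j : ℕ) * Nat.gcdB n (p ^ j) := by
      rw [← Nat.gcd_eq_gcd_ab, hcop.gcd_eq_one, Nat.cast_one]
    set u := Nat.gcdA n (p ^ j)
    set v := Nat.gcdB n (p ^ j)
    refine ⟨g ^ u, ?_⟩
    refine (QuotientAddGroup.eq).2 ?_
    rw [AddSubgroup.mem_addSubgroupOf]
    have e3 : ((-(⟨lg (r.ρ (g ^ u)), hlgM (g ^ u)⟩ : M) + ⟨x, hx⟩ : M) : Mt r.m) =
      x - lg (r.ρ (g ^ u)) := by
      push_cast
      rw [neg_add_eq_sub]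
    rw [e3, ← lg_int r h1, ← hX]
    have e4 : x - (u : ℚ) • ((n : ℚ) • x) = (v : ℚ) • (((p ^ j : ℕ) : ℚ) • x) := by
      have hb2 : (1 : ℚ) = n * u + (p ^ j : ℕ) * v := by exact_mod_cast hb
      rw [smul_smul, smul_smul]
      have : x = (1 : ℚ) • x := (one_smul _ x).symm
      nth_rewrite 1 [this]
      rw [← sub_smul, hb2]
      congr 1
      ring
    rw [e4]
    refine hIL.smul _ ?_ _ ?_
    · change ((v : ℚ).den).Coprime p
      rw [Rat.den_intCast]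
      exact Nat.coprime_one_left p
    · refine (hIm _).2 ⟨(J r.m).smul_mem _ hxJ, n, hn, g ^ (p ^ j), hpow g, ?_⟩
      rw [smul_comm, hX, ex_nat r h1]
  have hfin : Finite (G ⧸ N) := by
    haveI : N.FiniteIndex := ⟨hne⟩
    infer_instance
  let F : G ⧸ N → M ⧸ I.addSubgroupOf M := Quotient.lift f (fun a b hab => hf a b
    (QuotientGroup.leftRel_apply.1 hab))
  have hFs : Function.Surjective F := by
    intro y
    obtain ⟨g, hg⟩ := hsurj y
    exact ⟨(g : G ⧸ N), hg⟩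
  have hfin2 : Finite (M ⧸ I.addSubgroupOf M) := Finite.of_surjective F hFs
  refine ⟨M, I, hML, hid, hlgM, hmem, ?_, ?_, ?_⟩
  · change Nat.card (M ⧸ I.addSubgroupOf M) ≠ 0
    exact Nat.card_pos.ne'
  · change Nat.card (M ⧸ I.addSubgroupOf M) ≤ p ^ j
    rw [← hidx]
    exact Nat.card_le_card_of_surjective F hFs
  · intro x hx
    obtain ⟨hxJ, n, hn, g, _, hg⟩ := (hM x).1 hx
    exact ⟨n, hpos n hn, g, hlgJ x hxJ n g hg⟩

end Pool.Agent.W441.RG
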