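import Pool.Agent.W348.RG.Stms

/-!
Project RG (MP_67ef3c_al), part HT: entries of logarithms of words.
-/

set_option autoImplicit false

open Finset

namespace Pool.Agent.W441.RG

open Pool.Agent.W348.RG

/-- matrix valued functions of words with entries of polynomial size and bounded denominators -/
def MP {m : ℕ} (S : Finset (Mt m)) (F : List (Mt m) → Mt m) : Prop :=
  ∃ C D : ℕ, 0 < D ∧ ∀ l : List (Mt m), (∀ A ∈ l, A ∈ S) → ∀ i j,
    |F l i j| ≤ C * (l.length + 1) ^ C ∧ ∃ z : ℤ, (D : ℚ) * F l i j = z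

section

variable {m : ℕ} {S : Finset (Mt m)}

lemma one_le_len (l : List (Mt m)) : (1 : ℚ) ≤ (l.length : ℚ) + 1 := by
  have : (0 : ℚ) ≤ l.length := Nat.cast_nonneg _
  linarith

lemma mono_bd (l : List (Mt m)) {C C' : ℕ} (h : C ≤ C') :
    (C : ℚ) * ((l.length : ℚ) + 1) ^ C ≤ C' * ((l.length : ℚ) + 1) ^ C' := by
  have h1 := one_le_len l
  have h2 : (C : ℚ) ≤ C' := by exact_mod_cast h
  have h3 : ((l.length : ℚ) + 1) ^ C ≤ ((l.length : ℚ) + 1) ^ C' := pow_le_pow_right₀ h1 h
  have h4 : (0 : ℚ) ≤ ((l.length : ℚ) + 1) ^ C := by positivity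
  have h5 : (0 : ℚ) ≤ C' := Nat.cast_nonneg _
  exact mul_le_mul h2 h3 h4 h5

lemma MP_add {F G : List (Mt m) → Mt m} (hF : MP S F) (hG : MP S G) :
    MP S (fun l => F l + G l) := by
  obtain ⟨C, D, hD, h⟩ := hF
  obtain ⟨C', D', hD', h'⟩ := hG
  refine ⟨C + C', D * D', Nat.mul_pos hD hD', fun l hl i j => ?_⟩
  obtain ⟨h1, z, hz⟩ := h l hl i j
  obtain ⟨h1', z', hz'⟩ := h' l hl i j
  have hx := one_le_len l
  refine ⟨?_, D' * z + D * z', ?_⟩
  · have e : (fun l => F l + G l) l i j = F l i j + G l i j := Matrix.add_apply _ _ _ _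
    rw [e]
    refine (abs_add_le _ _).trans ?_
    have p1 : ((l.length : ℚ) + 1) ^ C ≤ ((l.length : ℚ) + 1) ^ (C + C') :=
      pow_le_pow_right₀ hx (Nat.le_add_right _ _)
    have p2 : ((l.length : ℚ) + 1) ^ C' ≤ ((l.length : ℚ) + 1) ^ (C + C') :=
      pow_le_pow_right₀ hx (Nat.le_add_left _ _)
    have p3 : (C : ℚ) * ((l.length : ℚ) + 1) ^ C ≤ C * ((l.length : ℚ) + 1) ^ (C + C') :=
      mul_le_mul_of_nonneg_left p1 (Nat.cast_nonneg _)
    have p4 : (C' : ℚ) * ((l.length : ℚ) + 1) ^ C' ≤ C' * ((l.length : ℚ) + 1) ^ (C + C') :=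
      mul_le_mul_of_nonneg_left p2 (Nat.cast_nonneg _)
    push_cast
    rw [add_mul]
    linarith
  · have e : (fun l => F l + G l) l i j = F l i j + G l i j := Matrix.add_apply _ _ _ _
    rw [e]
    push_cast
    rw [← hz, ← hz']
    ring

lemma MP_mul {F G : List (Mt m) → Mt m} (hF : MP S F) (hG : MP S G) :
    MP S (fun l => F l * G l) := by
  obtain ⟨C, D, hD, h⟩ := hF
  obtain ⟨C', D', hD', h'⟩ := hG
  refine ⟨m * C * C' + (C + C'), D * D', Nat.mul_pos hD hD', fun l hl i j => ?_⟩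
  have hx := one_le_len l
  have e : (fun l => F l * G l) l i j = ∑ r, F l i r * G l r j := Matrix.mul_apply
  refine ⟨?_, ?_⟩
  · rw [e]
    have s1 : |∑ r, F l i r * G l r j| ≤
        ∑ _r : Fin m, ((C : ℚ) * (l.length + 1) ^ C) * (C' * (l.length + 1) ^ C') := by
      refine (Finset.abs_sum_le_sum_abs _ _).trans (Finset.sum_le_sum fun r _ => ?_)
      rw [abs_mul]
      exact mul_le_mul (h l hl i r).1 (h' l hl r j).1 (abs_nonneg _) (by positivity)
    rw [Finset.sum_const, Finset.card_univ, Fintype.card_fin, nsmul_eq_mul] at s1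
    refine s1.trans ?_
    have s2 : (m : ℚ) * (((C : ℚ) * (l.length + 1) ^ C) * (C' * (l.length + 1) ^ C')) =
        ((m * C * C' : ℕ) : ℚ) * ((l.length : ℚ) + 1) ^ (C + C') := by
      push_cast
      rw [pow_add]
      ring
    rw [s2]
    refine mul_le_mul ?_ ?_ (by positivity) (by positivity)
    · exact_mod_cast Nat.le_add_right _ _
    · exact pow_le_pow_right₀ hx (Nat.le_add_left _ _)
  · rw [e]
    choose z hz using fun r => (h l hl i r).2
    choose z' hz' using fun r => (h' l hl r j).2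
    refine ⟨∑ r, z r * z' r, ?_⟩
    push_cast
    rw [Finset.mul_sum]
    refine Finset.sum_congr rfl fun r _ => ?_
    rw [← hz, ← hz']
    ring

lemma MP_smul {F : List (Mt m) → Mt m} (q : ℚ) (hF : MP S F) : MP S (fun l => q • F l) := by
  obtain ⟨C, D, hD, h⟩ := hF
  refine ⟨⌈|q|⌉₊ * C + C, q.den * D, Nat.mul_pos q.den_pos hD, fun l hl i j => ?_⟩
  obtain ⟨h1, z, hz⟩ := h l hl i j
  have hx := one_le_len l
  have e : (fun l => q • F l) l i j = q * F l i j := by
    change (q • F l) i j = _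
    rw [Matrix.smul_apply, smul_eq_mul]
  refine ⟨?_, q.num * z, ?_⟩
  · rw [e, abs_mul]
    have s1 : |q| * |F l i j| ≤ (⌈|q|⌉₊ : ℚ) * ((C : ℚ) * (l.length + 1) ^ C) :=
      mul_le_mul (Nat.le_ceil _) h1 (abs_nonneg _) (Nat.cast_nonneg _)
    refine s1.trans ?_
    have s2 : (⌈|q|⌉₊ : ℚ) * ((C : ℚ) * (l.length + 1) ^ C) =
        ((⌈|q|⌉₊ * C : ℕ) : ℚ) * ((l.length : ℚ) + 1) ^ C := by
      push_cast
      ring
    rw [s2]
    refine mul_le_mul ?_ ?_ (by positivity) (by positivity)
    · exact_mod_cast Nat.le_add_right _ _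
    · exact pow_le_pow_right₀ hx (Nat.le_add_left _ _)
  · rw [e]
    push_cast
    rw [← hz]
    have h3 : (q.den : ℚ) * q = q.num := by
      rw [mul_comm]
      exact Rat.mul_den_eq_num q
    rw [← h3]
    ring

lemma MP_const (A : Mt m) : MP S (fun _ => A) := by
  refine ⟨∑ i, ∑ j, ⌈|A i j|⌉₊, ∏ i, ∏ j, (A i j).den, ?_, fun l _ i j => ⟨?_, ?_⟩⟩
  · exact Finset.prod_pos fun i _ => Finset.prod_pos fun j _ => Rat.den_pos _
  · have hx := one_le_len l
    have s1 : ⌈|A i j|⌉₊ ≤ ∑ i, ∑ j, ⌈|A i j|⌉₊ := by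
      refine le_trans ?_ (Finset.single_le_sum (f := fun i => ∑ j, ⌈|A i j|⌉₊)
        (fun _ _ => Nat.zero_le _) (Finset.mem_univ i))
      exact Finset.single_le_sum (f := fun j => ⌈|A i j|⌉₊) (fun _ _ => Nat.zero_le _)
        (Finset.mem_univ j)
    have s2 : |A i j| ≤ ((∑ i, ∑ j, ⌈|A i j|⌉₊ : ℕ) : ℚ) :=
      (Nat.le_ceil _).trans (by exact_mod_cast s1)
    refine s2.trans ?_
    exact le_mul_of_one_le_right (Nat.cast_nonneg _) (one_le_pow₀ hx)
  · have s1 : (A i j).den ∣ ∏ i, ∏ j, (A i j).den :=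
      (Finset.dvd_prod_of_mem (fun j => (A i j).den) (Finset.mem_univ j)).trans
        (Finset.dvd_prod_of_mem (fun i => ∏ j, (A i j).den) (Finset.mem_univ i))
    obtain ⟨k, hk⟩ := s1
    refine ⟨k * (A i j).num, ?_⟩
    rw [hk]
    push_cast
    rw [← Rat.mul_den_eq_num (A i j)]
    ring

lemma MP_pow {F : List (Mt m) → Mt m} (hF : MP S F) (k : ℕ) : MP S (fun l => F l ^ k) := by
  induction k with
  | zero =>
    have := MP_const (S := S) (1 : Mt m)
    simpa using this
  | succ k ih =>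
    have := MP_mul ih hF
    simpa [pow_succ] using this

lemma MP_sum {F : ℕ → List (Mt m) → Mt m} (hF : ∀ k, MP S (F k)) (n : ℕ) :
    MP S (fun l => ∑ k ∈ range n, F k l) := by
  induction n with
  | zero =>
    have := MP_const (S := S) (0 : Mt m)
    simpa using this
  | succ n ih =>
    have := MP_add ih (hF n)
    simpa [Finset.sum_range_succ] using this

/-- a common bound for the entries of the matrices in `S` -/
lemma exists_bd (S : Finset (Mt m)) : ∃ B D : ℕ, 0 < D ∧ ∀ A ∈ S, ∀ i j,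
    |A i j| ≤ B ∧ ∃ z : ℤ, (D : ℚ) * A i j = z := by
  classical
  induction S using Finset.induction_on with
  | empty => exact ⟨0, 1, Nat.one_pos, fun A hA => absurd hA (Finset.notMem_empty A)⟩
  | insert A S _ ih =>
    obtain ⟨B, D, hD, h⟩ := ih
    obtain ⟨B', D', hD', h'⟩ := MP_const (S := (∅ : Finset (Mt m))) A
    have h2 := h' [] (by simp)
    refine ⟨B + B', D * D', Nat.mul_pos hD hD', fun A' hA' i j => ?_⟩
    rcases Finset.mem_insert.1 hA' with rfl | hA''
    · obtain ⟨h3, z, hz⟩ := h2 i j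
      refine ⟨?_, D * z, ?_⟩
      · refine h3.trans ?_
        have : (0 : ℚ) ≤ B := Nat.cast_nonneg _
        simp
      · push_cast
        rw [← hz]
        ring
    · obtain ⟨h3, z, hz⟩ := h A' hA'' i j
      refine ⟨?_, D' * z, ?_⟩
      · refine h3.trans ?_
        exact_mod_cast Nat.le_add_right _ _
      · push_cast
        rw [← hz]
        ring

lemma prod_tri (hS : ∀ A ∈ S, A - 1 ∈ J m) (l : List (Mt m)) (hl : ∀ A ∈ l, A ∈ S) :
    ∀ i j, j ≤ i → l.prod i j = if i = j then 1 else 0 := by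
  induction l with
  | nil =>
    intro i j _
    rw [List.prod_nil, Matrix.one_apply]
  | cons A l ih =>
    intro i j hij
    have ih' := ih (fun B hB => hl B (List.mem_cons_of_mem _ hB))
    have hA := hS A (hl A List.mem_cons_self)
    have hA' : ∀ i j, j ≤ i → A i j = if i = j then 1 else 0 := by
      intro i j h
      have := hA i j h
      rw [Matrix.sub_apply, sub_eq_zero, Matrix.one_apply] at this
      exact this
    rw [List.prod_cons, Matrix.mul_apply]
    rw [Finset.sum_eq_single i]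
    · rw [hA' i i le_rfl, if_pos rfl, one_mul, ih' i j hij]
    · intro r _ hr
      rcases lt_or_gt_of_ne hr with h | h
      · rw [hA' i r h.le, if_neg (fun e => hr e.symm), zero_mul]
      · rw [ih' r j (hij.trans h.le), if_neg (fun e => by
          rw [e] at h
          exact absurd hij (not_le.2 h)), mul_zero]
    · intro h
      exact absurd (Finset.mem_univ i) h

lemma prod_bd (hS : ∀ A ∈ S, A - 1 ∈ J m) {B D : ℕ} (_hD : 0 < D)
    (hB : ∀ A ∈ S, ∀ i j, |A i j| ≤ B ∧ ∃ z : ℤ, (D : ℚ) * A i j = z)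
    (l : List (Mt m)) (hl : ∀ A ∈ l, A ∈ S) :
    ∀ i j : Fin m, i ≤ j →
      |l.prod i j| ≤ (((m * B + 1 : ℕ) : ℚ) * ((l.length : ℚ) + 1)) ^ ((j : ℕ) - i) ∧
      ∃ z : ℤ, (D : ℚ) ^ ((j : ℕ) - i) * l.prod i j = z := by
  induction l with
  | nil =>
    intro i j hij
    rw [List.prod_nil, Matrix.one_apply]
    rcases eq_or_ne i j with rfl | h
    · rw [if_pos rfl]
      simp only [Nat.sub_self, pow_zero, abs_one, le_refl, true_and]
      exact ⟨1, by simp⟩
    · rw [if_neg h]
      refine ⟨?_, 0, by simp⟩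
      rw [abs_zero]
      positivity
  | cons A l ih =>
    intro i j hij
    have hl' : ∀ B ∈ l, B ∈ S := fun B hB => hl B (List.mem_cons_of_mem _ hB)
    have ih' := ih hl'
    have hAS := hl A List.mem_cons_self
    have hA := hS A hAS
    have hA' : ∀ i j, j ≤ i → A i j = if i = j then 1 else 0 := by
      intro i j h
      have := hA i j h
      rw [Matrix.sub_apply, sub_eq_zero, Matrix.one_apply] at this
      exact this
    have htri := prod_tri hS l hl'
    rcases eq_or_ne i j with rfl | hne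
    · have h1 := prod_tri hS (A :: l) hl i i le_rfl
      rw [if_pos rfl] at h1
      rw [h1]
      simp only [Nat.sub_self, pow_zero, abs_one, le_refl, true_and]
      exact ⟨1, by simp⟩
    have hlt : i < j := lt_of_le_of_ne hij hne
    have hk : 1 ≤ (j : ℕ) - i := by
      have : (i : ℕ) < j := hlt
      omega
    set k : ℕ := (j : ℕ) - i with hkdef
    have e : (A :: l).prod i j = l.prod i j + ∑ r ∈ Finset.univ.erase i, A i r * l.prod r j := by
      rw [List.prod_cons, Matrix.mul_apply, ← Finset.add_sum_erase _ _ (Finset.mem_univ i),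
        hA' i i le_rfl, if_pos rfl, one_mul]
    set X : ℚ := ((m * B + 1 : ℕ) : ℚ) * ((l.length : ℚ) + 1) with hX
    have hc1 : (1 : ℚ) ≤ ((m * B + 1 : ℕ) : ℚ) := by exact_mod_cast Nat.le_add_left _ _
    have hX1 : 1 ≤ X := by
      have := one_le_len l
      nlinarith
    have hcase : ∀ r ∈ Finset.univ.erase i, (A i r * l.prod r j = 0) ∨ (i < r ∧ r ≤ j) := by
      intro r hr
      have hr' := Finset.ne_of_mem_erase hr
      rcases lt_or_gt_of_ne hr' with h | h
      · left
        rw [hA' i r h.le, if_neg (fun e => hr' e.symm), zero_mul]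
      · rcases le_or_gt r j with h2 | h2
        · exact Or.inr ⟨h, h2⟩
        · left
          rw [htri r j h2.le, if_neg (fun e => by
            rw [e] at h2
            exact lt_irrefl _ h2), mul_zero]
    refine ⟨?_, ?_⟩
    · rw [e]
      have s1 : |∑ r ∈ Finset.univ.erase i, A i r * l.prod r j| ≤
          ∑ _r ∈ (Finset.univ.erase i : Finset (Fin m)), (B : ℚ) * X ^ (k - 1) := by
        refine (Finset.abs_sum_le_sum_abs _ _).trans (Finset.sum_le_sum fun r hr => ?_)
        rcases hcase r hr with h | ⟨h, h2⟩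
        · rw [h, abs_zero]
          positivity
        · rw [abs_mul]
          refine mul_le_mul (hB A hAS i r).1 ?_ (abs_nonneg _) (Nat.cast_nonneg _)
          refine (ih' r j h2).1.trans ?_
          refine pow_le_pow_right₀ hX1 ?_
          have : (i : ℕ) < r := h
          omega
      rw [Finset.sum_const, nsmul_eq_mul] at s1
      have s2 : (((Finset.univ.erase i : Finset (Fin m)).card : ℕ) : ℚ) ≤ m := by
        have : (Finset.univ.erase i : Finset (Fin m)).card ≤ m := by
          refine (Finset.card_le_univ _).trans ?_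
          rw [Fintype.card_fin]
        exact_mod_cast this
      have s3 : |∑ r ∈ Finset.univ.erase i, A i r * l.prod r j| ≤ (m : ℚ) * (B * X ^ (k - 1)) :=
        s1.trans (mul_le_mul_of_nonneg_right s2 (by positivity))
      refine (abs_add_le _ _).trans ?_
      have s4 := (ih' i j hij).1
      have hlen : (((A :: l).length : ℕ) : ℚ) + 1 = ((l.length : ℚ) + 1) + 1 := by
        rw [List.length_cons]
        push_cast
        ring
      rw [hlen, mul_add, mul_one, ← hX]
      have s5 : X ^ k = X ^ (k - 1) * X := by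
        rw [← pow_succ, Nat.sub_add_cancel hk]
      have s6 : (X + ((m * B + 1 : ℕ) : ℚ)) ^ k =
          (X + ((m * B + 1 : ℕ) : ℚ)) ^ (k - 1) * (X + ((m * B + 1 : ℕ) : ℚ)) := by
        rw [← pow_succ, Nat.sub_add_cancel hk]
      have s7 : X ^ (k - 1) ≤ (X + ((m * B + 1 : ℕ) : ℚ)) ^ (k - 1) :=
        pow_le_pow_left₀ (by linarith) (by linarith) _
      have s8 : X ^ (k - 1) * (X + ((m * B + 1 : ℕ) : ℚ)) ≤
          (X + ((m * B + 1 : ℕ) : ℚ)) ^ (k - 1) * (X + ((m * B + 1 : ℕ) : ℚ)) :=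
        mul_le_mul_of_nonneg_right s7 (by positivity)
      rw [s6]
      refine le_trans ?_ s8
      have s9 : 0 ≤ X ^ (k - 1) := by positivity
      have s10 : X ^ (k - 1) * (X + ((m * B + 1 : ℕ) : ℚ)) =
          X ^ k + (m : ℚ) * (B * X ^ (k - 1)) + X ^ (k - 1) := by
        rw [s5]
        push_cast
        ring
      rw [s10]
      linarith
    · rw [e, mul_add, Finset.mul_sum]
      obtain ⟨z, hz⟩ := (ih' i j hij).2
      have hterm : ∀ r ∈ Finset.univ.erase i, ∃ z : ℤ,
          (D : ℚ) ^ k * (A i r * l.prod r j) = z := by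
        intro r hr
        rcases hcase r hr with h | ⟨h, h2⟩
        · exact ⟨0, by rw [h]; simp⟩
        · obtain ⟨z1, hz1⟩ := (hB A hAS i r).2
          obtain ⟨z2, hz2⟩ := (ih' r j h2).2
          refine ⟨(D : ℤ) ^ (k - 1 - ((j : ℕ) - r)) * z1 * z2, ?_⟩
          have hk2 : k = (k - 1 - ((j : ℕ) - r)) + 1 + ((j : ℕ) - r) := by
            have : (i : ℕ) < r := h
            have : (r : ℕ) ≤ j := h2
            omega
          push_cast
          rw [← hz1, ← hz2]
          nth_rewrite 1 [hk2]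
          rw [pow_add, pow_succ]
          ring
      choose f hf using hterm
      refine ⟨z + ∑ r ∈ (Finset.univ.erase i).attach, f r.1 r.2, ?_⟩
      push_cast
      rw [hz, ← Finset.sum_attach]
      congr 1
      exact Finset.sum_congr rfl fun r _ => hf r.1 r.2

lemma MP_prod (hS : ∀ A ∈ S, A - 1 ∈ J m) : MP S (fun l => l.prod) := by
  obtain ⟨B, D, hD, hB⟩ := exists_bd S
  refine ⟨(m * B + 1) ^ m + m + 1, D ^ m, pow_pos hD _, fun l hl i j => ?_⟩
  have hx := one_le_len l
  rcases le_or_gt i j with hij | hij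
  · obtain ⟨h1, z, hz⟩ := prod_bd hS hD hB l hl i j hij
    have hkm : (j : ℕ) - i ≤ m := by
      have := j.2
      omega
    refine ⟨?_, D ^ (m - ((j : ℕ) - i)) * z, ?_⟩
    · refine h1.trans ?_
      have hc1 : (1 : ℚ) ≤ ((m * B + 1 : ℕ) : ℚ) := by exact_mod_cast Nat.le_add_left _ _
      have hX1 : (1 : ℚ) ≤ ((m * B + 1 : ℕ) : ℚ) * ((l.length : ℚ) + 1) := by nlinarith
      refine (pow_le_pow_right₀ hX1 hkm).trans ?_
      rw [mul_pow]
      refine mul_le_mul ?_ ?_ (by positivity) (by positivity)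
      · have : (m * B + 1) ^ m ≤ (m * B + 1) ^ m + m + 1 := by omega
        exact_mod_cast this
      · exact pow_le_pow_right₀ hx (by omega)
    · have hm : m = (m - ((j : ℕ) - i)) + ((j : ℕ) - i) := by omega
      push_cast
      rw [← hz]
      nth_rewrite 1 [hm]
      rw [pow_add]
      ring
  · have h1 := prod_tri hS l hl i j hij.le
    rw [if_neg hij.ne'] at h1
    change |l.prod i j| ≤ _ ∧ ∃ z : ℤ, _ * l.prod i j = z
    rw [h1, abs_zero, mul_zero]
    exact ⟨by positivity, 0, by simp⟩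

end

theorem ht : S_ht := by
  intro m S hS
  have h1 : MP S (fun l => l.prod) := MP_prod hS
  have h2 : MP S (fun l => l.prod + (-1 : ℚ) • (1 : Mt m)) :=
    MP_add h1 (MP_smul (-1) (MP_const 1))
  have h3 : MP S (fun l => ∑ k ∈ range m, ((-1 : ℚ) ^ (k + 1) / k) •
      (l.prod + (-1 : ℚ) • (1 : Mt m)) ^ k) :=
    MP_sum (F := fun k l => ((-1 : ℚ) ^ (k + 1) / k) • (l.prod + (-1 : ℚ) • (1 : Mt m)) ^ k)
      (fun k => MP_smul _ (MP_pow h2 k)) m
  have e : ∀ l : List (Mt m), lg l.prod = ∑ k ∈ range m, ((-1 : ℚ) ^ (k + 1) / k) •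
      (l.prod + (-1 : ℚ) • (1 : Mt m)) ^ k := by
    intro l
    unfold lg
    rw [neg_one_smul, ← sub_eq_add_neg]
  obtain ⟨C, D, hD, h⟩ := h3
  refine ⟨C, D, hD, fun l hl i j => ?_⟩
  rw [e l]
  exact h l hl i j

end Pool.Agent.W441.RG
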